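import Pool.Agent.MP_75da70_an.H31.LB
import Pool.Agent.MP_75da70_an.H7.Bridge

/-
Bimodules of bounded operators, the inequality between global dimension and bidimension, and the
comparison with the official definitions.
-/

namespace Pool.Agent.MP_75da70_an.H8

open H7

section Basic

variable {A : Type} [NonUnitalNormedCommRing A] [NormedSpace ℂ A]

theorem g3_homB_left (X Y : LM A) (a : A) (f : X.carrier →L[ℂ] Y.carrier) (x : X.carrier) :
    (HomB X Y).op (a, 0) f x = Y.op a (f x) := by simp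

theorem g3_homB_right (X Y : LM A) (a : A) (f : X.carrier →L[ℂ] Y.carrier) (x : X.carrier) :
    (HomB X Y).op (0, a) f x = f (X.op a x) := by simp

/-- precomposition as a bounded linear map. -/
noncomputable def g3_pre {E F : Type} (G : Type) [NormedAddCommGroup E] [NormedSpace ℂ E]
    [NormedAddCommGroup F] [NormedSpace ℂ F] [NormedAddCommGroup G] [NormedSpace ℂ G]
    (u : E →L[ℂ] F) : (F →L[ℂ] G) →L[ℂ] (E →L[ℂ] G) :=
  (ContinuousLinearMap.compL ℂ E F G).flip u

@[simp] theorem g3_pre_apply {E F G : Type} [NormedAddCommGroup E] [NormedSpace ℂ E]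
    [NormedAddCommGroup F] [NormedSpace ℂ F] [NormedAddCommGroup G] [NormedSpace ℂ G]
    (u : E →L[ℂ] F) (f : F →L[ℂ] G) (e : E) : g3_pre G u f e = f (u e) := rfl

theorem g3_mr_pre {X X' : LM A} {u : X.carrier →L[ℂ] X'.carrier} (hu : Mr X X' u) (Y : LM A) :
    Mr (HomB X' Y) (HomB X Y) (g3_pre Y.carrier u) := by
  refine mr_bi (fun a f => ?_) (fun a f => ?_)
  · ext x
    rw [g3_pre_apply, g3_homB_left, g3_homB_left, g3_pre_apply]
  · ext x
    rw [g3_pre_apply, g3_homB_right, g3_homB_right, g3_pre_apply, hu]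

theorem g3_ses_homB {K P X : LM A} {j σ} (h : SES K P X j σ) (Y : LM A) :
    SES (HomB X Y) (HomB P Y) (HomB K Y) (g3_pre Y.carrier σ) (g3_pre Y.carrier j) := by
  obtain ⟨ρ, s, h1, h2, h3⟩ := h.split
  refine ⟨g3_mr_pre h.mσ Y, g3_mr_pre h.mj Y, g3_pre Y.carrier s, g3_pre Y.carrier ρ,
    fun f => ?_, fun f => ?_, fun f => ?_⟩
  · ext x
    rw [g3_pre_apply, g3_pre_apply, h2]
  · ext x
    rw [g3_pre_apply, g3_pre_apply, h1]
  · ext x
    rw [add_apply, g3_pre_apply, g3_pre_apply, g3_pre_apply, g3_pre_apply,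
      ← map_add, add_comm, h3]

theorem g3_ses_left {K Q M : BM A} {j σ} (h : SES K Q M j σ) : SES K.left Q.left M.left j σ :=
  ⟨fun a x => h.mj (a, 0) x, fun a x => h.mσ (a, 0) x, h.split⟩

/-- bounded left module maps out of a bimodule. -/
def g3_HS (Q : BM A) (Y : LM A) : Submodule ℂ (Q.carrier →L[ℂ] Y.carrier) where
  carrier := {f | ∀ a u, f (Q.op (a, 0) u) = Y.op a (f u)}
  add_mem' := fun {f g} hf hg a u => by
    simp only [add_apply, map_add, hf a u, hg a u]
  zero_mem' := fun a u => by simp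
  smul_mem' := fun c f hf a u => by
    simp only [smul_apply, map_smul, hf a u]

theorem g3_HS_closed (Q : BM A) (Y : LM A) :
    IsClosed (g3_HS Q Y : Set (Q.carrier →L[ℂ] Y.carrier)) := by
  have : (g3_HS Q Y : Set (Q.carrier →L[ℂ] Y.carrier)) =
      ⋂ a, ⋂ u, {f | f (Q.op (a, 0) u) = Y.op a (f u)} := by
    ext f
    simp only [Set.mem_iInter]
    rfl
  rw [this]
  exact isClosed_iInter fun a => isClosed_iInter fun u => isClosed_eq (by fun_prop) (by fun_prop)

/-- the same space as a left module through the right action. -/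
@[reducible] noncomputable def g3_H (Q : BM A) (Y : LM A) : LM A :=
  (HomB Q.right Y).right.sub (g3_HS Q Y) (g3_HS_closed Q Y) fun b f hf a u => by
    have h1 : ∀ v, (HomB Q.right Y).right.op b f v = f (Q.op (0, b) v) := fun v =>
      g3_homB_right Q.right Y b f v
    rw [h1, h1, ← Q.ax.2.2, hf]

theorem g3_H_op (Q : BM A) (Y : LM A) (b : A) (f : (g3_H Q Y).carrier) (v : Q.carrier) :
    ((g3_H Q Y).op b f : Q.carrier →L[ℂ] Y.carrier) v =
      (f : Q.carrier →L[ℂ] Y.carrier) (Q.op (0, b) v) :=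
  g3_homB_right Q.right Y b f v

/-- precomposition with a left module map. -/
noncomputable def g3_res {K Q : BM A} (Y : LM A) (u : K.carrier →L[ℂ] Q.carrier)
    (hu : Mr K.left Q.left u) : (g3_H Q Y).carrier →L[ℂ] (g3_H K Y).carrier :=
  ((g3_pre Y.carrier u).comp (g3_HS Q Y).subtypeL).codRestrict (g3_HS K Y) fun f a v => by
    have h1 : u (K.op (a, 0) v) = Q.op (a, 0) (u v) := hu a v
    have h2 := f.2 a (u v)
    change (f : Q.carrier →L[ℂ] Y.carrier) (u (K.op (a, 0) v)) =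
      Y.op a ((f : Q.carrier →L[ℂ] Y.carrier) (u v))
    rw [h1, h2]

theorem g3_res_apply {K Q : BM A} (Y : LM A) (u : K.carrier →L[ℂ] Q.carrier)
    (hu : Mr K.left Q.left u) (f : (g3_H Q Y).carrier) (v : K.carrier) :
    (g3_res Y u hu f : K.carrier →L[ℂ] Y.carrier) v = (f : Q.carrier →L[ℂ] Y.carrier) (u v) := rfl

theorem g3_base0 {M : BM A} (hM : Pj M.left) {X : LM A} (hX : Pj X) (Y : LM A) :
    EZ 0 M (HomB X Y) := by
  intro K Q j σ h φ hφ
  obtain ⟨ρ, hρ, hρj⟩ := (g3_ses_left h).exists_retraction hM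
  have hj : Mr K.left Q.left j := (g3_ses_left h).mj
  have hmem : ∀ ξ, φ.flip ξ ∈ g3_HS K Y := fun ξ a v => by
    have h1 := hφ (a, 0) v
    change φ (K.op (a, 0) v) ξ = Y.op a (φ v ξ)
    rw [h1, g3_homB_left]
  obtain ⟨Ψ, hΨ, hΨ'⟩ := hX (g3_H Q Y) (g3_H K Y) (g3_res Y j hj)
    (fun b f => Subtype.ext (ContinuousLinearMap.ext fun v => by
      rw [g3_res_apply, g3_H_op, g3_H_op, g3_res_apply, h.mj]))
    ⟨g3_res Y ρ hρ, fun f => Subtype.ext (ContinuousLinearMap.ext fun v => by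
      rw [g3_res_apply, g3_res_apply, hρj])⟩
    (φ.flip.codRestrict (g3_HS K Y) hmem)
    (fun b ξ => Subtype.ext (ContinuousLinearMap.ext fun v => by
      rw [g3_H_op]
      change φ v (X.op b ξ) = φ (K.op (0, b) v) ξ
      rw [hφ (0, b) v, g3_homB_right]))
  refine ⟨((g3_HS Q Y).subtypeL.comp Ψ).flip, mr_bi (fun a q => ?_) (fun a q => ?_), fun k => ?_⟩
  · ext ξ
    rw [g3_homB_left]
    exact (Ψ ξ).2 a q
  · ext ξ
    rw [g3_homB_right]
    change (Ψ ξ : Q.carrier →L[ℂ] Y.carrier) (Q.op (0, a) q) =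
      (Ψ (X.op a ξ) : Q.carrier →L[ℂ] Y.carrier) q
    rw [hΨ a ξ, g3_H_op]
  · ext ξ
    exact congrArg (fun f : (g3_H K Y).carrier => (f : K.carrier →L[ℂ] Y.carrier) k) (hΨ' ξ)

theorem g3_pj_diag_left {M : LM A} (h : Pj M) : Pj (diag M).left :=
  Retr.pj (N := M) ⟨.id ℂ M.carrier, .id ℂ M.carrier, fun a x => by simp, fun a x => by simp,
    fun _ => rfl⟩ h

end Basic

variable {A : Type} [NonUnitalNormedCommRing A] [NormedSpace ℂ A] [CompleteSpace A]
  [IsScalarTower ℂ A A] [SMulCommClass ℂ A A]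

theorem g3_base (k : ℕ) : ∀ {M : BM A}, Pj M.left → ∀ {X : LM A}, Pj X → ∀ Y : LM A,
    EZ k M (HomB X Y) := by
  induction k with
  | zero => exact fun hM _ hX Y => g3_base0 hM hX Y
  | succ k ih =>
    intro M hM X hX Y K P j σ h hP
    obtain ⟨ρ, hρ, hρj⟩ := (g3_ses_left h).exists_retraction hM
    exact ih (Retr.pj ⟨j, ρ, (g3_ses_left h).mj, hρ, hρj⟩ hP.left) hX Y

theorem ez_homB {n : ℕ} {X : LM A} (h : PD n X) (Y : LM A) :
    EZ n (diag (plusL A)) (HomB X Y) := by
  induction n generalizing X with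
  | zero => exact g3_base 0 (g3_pj_diag_left pj_plusL) ((PD.zero_iff enough_lT).1 h) Y
  | succ n ih =>
    obtain ⟨K, P, j, σ, hS, hP⟩ := enough_lT X
    exact EZ.shift_sub enough_bT (g3_ses_homB hS Y) (ih fun W => h W K P j σ hS hP)
      (g3_base _ (g3_pj_diag_left pj_plusL) hP Y)

/-- the action of the unitization on a module. -/
noncomputable def g3_uact (K : LM A) :
    WithLp 1 (Unitization ℂ A) →L[ℂ] (K.carrier →L[ℂ] K.carrier) :=
  LinearMap.mkContinuous
    { toFun := fun x => x.ofLp.fst • ContinuousLinearMap.id ℂ K.carrier + K.op x.ofLp.snd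
      map_add' := fun x y => by
        simp only [WithLp.ofLp_add, Unitization.fst_add, Unitization.snd_add, add_smul, map_add]
        abel
      map_smul' := fun c x => by
        simp only [WithLp.ofLp_smul, Unitization.fst_smul, Unitization.snd_smul, map_smul,
          RingHom.id_apply, smul_add, smul_eq_mul, mul_smul] }
    (1 + ‖K.op‖) fun x => by
      rw [WithLp.unitization_norm_def]
      refine (norm_add_le _ _).trans ?_
      have h1 : ‖x.ofLp.fst • ContinuousLinearMap.id ℂ K.carrier‖ ≤ ‖x.ofLp.fst‖ := by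
        rw [norm_smul]
        exact mul_le_of_le_one_right (norm_nonneg _) ContinuousLinearMap.norm_id_le
      have h2 := K.op.le_opNorm x.ofLp.snd
      nlinarith [norm_nonneg x.ofLp.fst, norm_nonneg x.ofLp.snd, norm_nonneg K.op]

omit [CompleteSpace A] in
theorem g3_uact_apply (K : LM A) (x : WithLp 1 (Unitization ℂ A)) (k : K.carrier) :
    g3_uact K x k = x.ofLp.fst • k + K.op x.ofLp.snd k := rfl

omit [CompleteSpace A] in
theorem g3_uact_mul (K : LM A) (a : A) (x : WithLp 1 (Unitization ℂ A)) (k : K.carrier) :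
    g3_uact K (inrL A a * x) k = K.op a (g3_uact K x k) := by
  rw [g3_uact_apply, g3_uact_apply, WithLp.unitization_mul, inrL_apply]
  simp [op_mul]

omit [CompleteSpace A] in
theorem g3_uact_comm (K : LM A) (a : A) (x : WithLp 1 (Unitization ℂ A)) (k : K.carrier) :
    g3_uact K x (K.op a k) = K.op a (g3_uact K x k) := by
  rw [g3_uact_apply, g3_uact_apply, map_add, map_smul, op_comm]

theorem g3_plus_left (a : A) (x : WithLp 1 (Unitization ℂ A)) :
    (diag (plusL A)).op (a, 0) x = inrL A a * x := by simp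

theorem g3_plus_right (a : A) (x : WithLp 1 (Unitization ℂ A)) :
    (diag (plusL A)).op (0, a) x = inrL A a * x := by simp

theorem g3_mr_uact (K : LM A) : Mr (diag (plusL A)) (HomB K K) (g3_uact K) := by
  refine mr_bi (fun a x => ?_) (fun a x => ?_)
  · ext k
    rw [g3_plus_left, g3_homB_left, g3_uact_mul]
  · ext k
    rw [g3_plus_right, g3_homB_right, g3_uact_mul, g3_uact_comm]

theorem pd_of_ez_homB {n : ℕ} {X : LM A} (h : ∀ Y : LM A, EZ n (diag (plusL A)) (HomB X Y)) :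
    PD n X := by
  induction n generalizing X with
  | zero =>
    obtain ⟨K, P, j, σ, hS, hP⟩ := enough_lT X
    obtain ⟨ψ, hψ, hψ'⟩ := EZ.lift0 (g3_ses_homB hS K) (h K) (g3_uact K) (g3_mr_uact K)
    refine (PD.zero_iff enough_lT).2 (hS.pj_of_retraction hP (ψ 1) (fun a p => ?_) fun k => ?_)
    · rw [← g3_homB_right P K a, ← g3_homB_left P K a, ← hψ, ← hψ, g3_plus_left, g3_plus_right]
    · have h1 := congrArg (fun f : K.carrier →L[ℂ] K.carrier => f k) (hψ' 1)
      simp only [g3_pre_apply, g3_uact_apply] at h1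
      rw [h1]
      change (1 : Unitization ℂ A).fst • k + K.op (1 : Unitization ℂ A).snd k = k
      simp
  | succ n ih =>
    obtain ⟨K, P, j, σ, hS, hP⟩ := enough_lT X
    have hK : PD n K := ih fun Y => EZ.shift_quot enough_bT (g3_ses_homB hS Y)
      (g3_base _ (g3_pj_diag_left pj_plusL) hP Y) (h Y)
    exact fun W => EZ.succ_of enough_lT hS hP (hK W)

section Bridge

variable {B : Type} [NonUnitalNormedCommRing B] [NormedSpace ℂ B]

@[reducible] noncomputable def g3_toLM (X : BanMod B) : LM B where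
  carrier := X.carrier
  op := X.act
  ax := X.act_mul

@[reducible] noncomputable def g3_toBan (X : LM B) : BanMod B where
  carrier := X.carrier
  act := X.op
  act_mul := X.ax

theorem g3_pj_toLM {P : BanMod B} (h : IsProjective P) : Pj (g3_toLM P) :=
  fun Y X σ hσ hτ φ hφ => h (g3_toBan Y) (g3_toBan X) σ hσ hτ φ hφ

theorem g3_proj_toBan {P : LM B} (h : Pj P) : IsProjective (g3_toBan P) :=
  fun Y X σ hσ hτ φ hφ => h (g3_toLM Y) (g3_toLM X) σ hσ hτ φ hφ

theorem g3_hasR_toLM {X : BanMod B} {n : ℕ} (h : HasR (g3_toLM X) n) : HasProjRes X n := by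
  obtain ⟨P, ε, d, t, s, hP, h⟩ := h
  exact ⟨fun k => g3_toBan (P k), ε, d, t, s, fun k => g3_proj_toBan (hP k), h⟩

theorem g3_hasR_of_toBan {X : LM B} {n : ℕ} (h : HasProjRes (g3_toBan X) n) : HasR X n := by
  obtain ⟨P, ε, d, t, s, hP, h⟩ := h
  exact ⟨fun k => g3_toLM (P k), ε, d, t, s, fun k => g3_pj_toLM (hP k), h⟩

theorem g3_iInf_le {p : ℕ → Prop} {n : ℕ} (h : ⨅ (m : ℕ) (_ : p m), (m : ℕ∞) ≤ n) :
    ∃ m ≤ n, p m := by
  by_contra hc
  have h1 : ((n + 1 : ℕ) : ℕ∞) ≤ ⨅ (m : ℕ) (_ : p m), (m : ℕ∞) :=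
    le_iInf₂ fun m hm => Nat.cast_le.2 (not_le.1 fun hmn => hc ⟨m, hmn, hm⟩)
  exact absurd (Nat.cast_le.1 (h1.trans h)) (by omega)

/-- the left action as a bounded bilinear map. -/
noncomputable def g3_l (X : BiMod B) : B →L[ℂ] X.carrier →L[ℂ] X.carrier :=
  X.l_bilin.toContinuousLinearMap

/-- the right action as a bounded bilinear map. -/
noncomputable def g3_r (X : BiMod B) : B →L[ℂ] X.carrier →L[ℂ] X.carrier :=
  X.r_bilin.toContinuousLinearMap.flip

theorem g3_l_apply (X : BiMod B) (a : B) (x : X.carrier) : g3_l X a x = X.l a x := rfl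

theorem g3_r_apply (X : BiMod B) (a : B) (x : X.carrier) : g3_r X a x = X.r x a := rfl

@[reducible] noncomputable def g3_toBM (X : BiMod B) : BM B :=
  mkBi X.carrier (g3_l X) (g3_r X) X.l_mul
    (fun a b x => by rw [g3_r_apply, g3_r_apply, g3_r_apply, mul_comm, X.r_mul]) X.l_r

theorem g3_toBM_left (X : BiMod B) (a : B) (x : X.carrier) :
    (g3_toBM X).op (a, 0) x = X.l a x := by simp [g3_l_apply]

theorem g3_toBM_right (X : BiMod B) (a : B) (x : X.carrier) :
    (g3_toBM X).op (0, a) x = X.r x a := by simp [g3_r_apply]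

@[reducible] noncomputable def g3_toBi (X : BM B) : BiMod B where
  carrier := X.carrier
  l := fun a x => X.op (a, 0) x
  r := fun x a => X.op (0, a) x
  l_bilin := X.left.op.isBoundedBilinearMap
  r_bilin := X.right.op.flip.isBoundedBilinearMap
  l_mul := X.ax.1
  r_mul := fun a b x => by rw [mul_comm, X.ax.2.1]
  l_r := X.ax.2.2

theorem g3_mr_of_biMor {X Y : BiMod B} {f : X.carrier → Y.carrier} (h : BiMor X Y f) :
    Mr (g3_toBM X) (g3_toBM Y) (IsBoundedLinearMap.toContinuousLinearMap f h.1) := by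
  refine mr_bi (fun a x => ?_) (fun a x => ?_)
  · rw [g3_toBM_left, g3_toBM_left]
    exact h.2.1 a x
  · rw [g3_toBM_right, g3_toBM_right]
    exact h.2.2 a x

theorem g3_biMor_of_mr {X Y : BM B} {f : X.carrier →L[ℂ] Y.carrier} (h : Mr X Y f) :
    BiMor (g3_toBi X) (g3_toBi Y) f :=
  ⟨f.isBoundedLinearMap, fun a x => h (a, 0) x, fun a x => h (0, a) x⟩

theorem g3_biMor_to {X : BM B} {Y : BiMod B} {f : X.carrier →L[ℂ] Y.carrier}
    (h : Mr X (g3_toBM Y) f) : BiMor (g3_toBi X) Y f :=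
  ⟨f.isBoundedLinearMap, fun a x => (h (a, 0) x).trans (g3_toBM_left Y a _),
    fun a x => (h (0, a) x).trans (g3_toBM_right Y a _)⟩

theorem g3_biMor_from {X : BiMod B} {Y : BM B} {f : X.carrier →L[ℂ] Y.carrier}
    (h : Mr (g3_toBM X) Y f) : BiMor X (g3_toBi Y) f :=
  ⟨f.isBoundedLinearMap, fun a x => (congrArg f (g3_toBM_left X a x)).symm.trans (h (a, 0) x),
    fun a x => (congrArg f (g3_toBM_right X a x)).symm.trans (h (0, a) x)⟩

theorem g3_pj_toBM {P : BiMod B} (h : BiProj P) : Pj (g3_toBM P) := by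
  rintro Y X σ hσ ⟨τ, hτ⟩ φ hφ
  obtain ⟨ψ, h1, h2⟩ := h (g3_toBi Y) (g3_toBi X) σ
    ⟨g3_biMor_of_mr hσ, τ, τ.isBoundedLinearMap, hτ⟩ φ (g3_biMor_from hφ)
  refine ⟨IsBoundedLinearMap.toContinuousLinearMap ψ h1.1,
    mr_bi (fun a x => ?_) (fun a x => ?_), h2⟩
  · rw [g3_toBM_left]
    exact h1.2.1 a x
  · rw [g3_toBM_right]
    exact h1.2.2 a x

theorem g3_biProj_toBi {P : BM B} (h : Pj P) : BiProj (g3_toBi P) := by
  rintro Y X σ ⟨hσ, τ, h3, h4⟩ φ hφ
  obtain ⟨ψ, h7, h8⟩ := h (g3_toBM Y) (g3_toBM X) _ (g3_mr_of_biMor hσ)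
    ⟨IsBoundedLinearMap.toContinuousLinearMap τ h3, h4⟩
    (IsBoundedLinearMap.toContinuousLinearMap φ hφ.1)
    (mr_bi (fun a x => (hφ.2.1 a x).trans (g3_toBM_left X a _).symm)
      (fun a x => (hφ.2.2 a x).trans (g3_toBM_right X a _).symm))
  exact ⟨ψ, g3_biMor_to h7, h8⟩

theorem g3_hasR_toBM {X : BiMod B} {n : ℕ} (h : BiHasRes X n) : HasR (g3_toBM X) n := by
  obtain ⟨P, ε, d, hP, ⟨e1, hd, h1, h2⟩, ⟨t, s, ht, hs, h3, h4, h5⟩, h6⟩ := h
  exact ⟨fun k => g3_toBM (P k), IsBoundedLinearMap.toContinuousLinearMap ε e1.1,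
    fun k => IsBoundedLinearMap.toContinuousLinearMap (d k) (hd k).1,
    IsBoundedLinearMap.toContinuousLinearMap t ht,
    fun k => IsBoundedLinearMap.toContinuousLinearMap (s k) (hs k),
    fun k => g3_pj_toBM (hP k), g3_mr_of_biMor e1, fun k => g3_mr_of_biMor (hd k),
    h1, h2, h3, h4, h5, h6⟩

theorem g3_biHasRes {X : BiMod B} {n : ℕ} (h : HasR (g3_toBM X) n) : BiHasRes X n := by
  obtain ⟨P, ε, d, t, s, hP, hε, hd, h1, h2, h3, h4, h5, h6⟩ := h
  exact ⟨fun k => g3_toBi (P k), ε, fun k => d k, fun k => g3_biProj_toBi (hP k),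
    ⟨g3_biMor_to hε, fun k => g3_biMor_of_mr (hd k), h1, h2⟩,
    ⟨t, fun k => s k, t.isBoundedLinearMap, fun k => (s k).isBoundedLinearMap, h3, h4, h5⟩, h6⟩

end Bridge

theorem globDim_le_iff (n : ℕ) : globDim A ≤ n ↔ ∀ X : LM A, PD n X := by
  rw [globDim_eq]
  constructor
  · intro h X
    obtain ⟨m, hm, hX⟩ := g3_iInf_le ((le_iSup dh (g3_toBan X)).trans h)
    exact PD.mono enough_lT ((pd_iff_hasR enough_lT).2 (g3_hasR_of_toBan hX)) hm
  · intro h
    exact iSup_le fun X =>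
      iInf₂_le n (g3_hasR_toLM ((pd_iff_hasR enough_lT).1 (h (g3_toLM X))))

omit [CompleteSpace A] in
theorem g3_plus_comm (a : A) (x : WithLp 1 (Unitization ℂ A)) : x * inrL A a = inrL A a * x := by
  apply WithLp.ofLp_injective 1
  rw [WithLp.unitization_mul, WithLp.unitization_mul, mul_comm]

/-- the identity map between the two models of the unitization. -/
noncomputable def g3_idP : (diag (plusL A)).carrier →L[ℂ] (g3_toBM (plus A)).carrier :=
  .id ℂ (WithLp 1 (Unitization ℂ A))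

noncomputable def g3_idP' : (g3_toBM (plus A)).carrier →L[ℂ] (diag (plusL A)).carrier :=
  .id ℂ (WithLp 1 (Unitization ℂ A))

theorem g3_mr_plus : Mr (diag (plusL A)) (g3_toBM (plus A)) g3_idP :=
  mr_bi (X := diag (plusL A)) (Y := g3_toBM (plus A)) (f := g3_idP)
    (fun a x => (g3_plus_left a x).trans (g3_toBM_left (plus A) a x).symm)
    (fun a x => ((g3_plus_right a x).trans (g3_plus_comm a x).symm).trans
      (g3_toBM_right (plus A) a x).symm)

theorem g3_mr_plus' : Mr (g3_toBM (plus A)) (diag (plusL A)) g3_idP' :=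
  mr_bi (X := g3_toBM (plus A)) (Y := diag (plusL A)) (f := g3_idP')
    (fun a x => (g3_toBM_left (plus A) a x).trans (g3_plus_left a x).symm)
    (fun a x => ((g3_toBM_right (plus A) a x).trans (g3_plus_comm a x)).trans
      (g3_plus_right a x).symm)

theorem biDim_le_iff (n : ℕ) : biDim A ≤ n ↔ PD n (diag (plusL A)) := by
  have h' := g3_mr_plus' (A := A)
  constructor
  · intro h
    obtain ⟨m, hm, hX⟩ := g3_iInf_le h
    have h1 := PD.mono enough_bT ((pd_iff_hasR enough_bT).2 (g3_hasR_toBM hX)) hm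
    exact fun W => EZ.retr enough_bT ⟨_, _, g3_mr_plus, h', fun _ => rfl⟩ (h1 W)
  · intro h
    have h1 : PD n (g3_toBM (plus A)) :=
      fun W => EZ.retr enough_bT ⟨_, _, h', g3_mr_plus, fun _ => rfl⟩ (h W)
    exact iInf₂_le n (g3_biHasRes ((pd_iff_hasR enough_bT).1 h1))

theorem globDim_le_biDim : globDim A ≤ biDim A := by
  rcases eq_or_ne (biDim A) ⊤ with h | h
  · rw [h]
    exact le_top
  · obtain ⟨n, hn⟩ := ENat.ne_top_iff_exists.1 h
    have h1 := (biDim_le_iff n).1 hn.ge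
    rw [← hn]
    exact (globDim_le_iff n).2 fun X => pd_of_ez_homB fun Y => h1 (HomB X Y)

end Pool.Agent.MP_75da70_an.H8
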